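import Pool.Agent.Helper61.Tri.Goals2

/-! Packet ST1: structure theorem, first part. -/

set_option autoImplicit false

open Finset Pool.Agent.Helper61.Tri

namespace Pool.Agent.Helper85.Tri

noncomputable section

open scoped Classical

theorem oe_sum {V : Type} [Fintype V] (J : SimpleGraph V) :
    ((oe J).card : ℝ) = ∑ u : V, ((nb J u).card : ℝ) := by
  unfold oe nb
  simp only [Finset.card_filter]
  push_cast
  rw [Fintype.sum_prod_type]

theorem mantel {V : Type} [Fintype V] (J : SimpleGraph V) (h : TF J) :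
    ((oe J).card : ℝ) ≤ 1 / 2 * (Fintype.card V : ℝ) ^ 2 := by
  have hdeg : ∀ u : V, ((nb J u).card : ℝ) = ∑ v : V, if J.Adj u v then (1:ℝ) else 0 := by
    intro u
    unfold nb
    rw [Finset.card_filter]
    push_cast
    rfl
  have hdeg' : ∀ v : V, ((nb J v).card : ℝ) = ∑ u : V, if J.Adj u v then (1:ℝ) else 0 := by
    intro v
    rw [hdeg]
    exact Finset.sum_congr rfl fun u _ => by simp only [J.adj_comm]
  have hedge : ∀ u v : V, J.Adj u v →
      ((nb J u).card : ℝ) + ((nb J v).card : ℝ) ≤ (Fintype.card V : ℝ) := by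
    intro u v huv
    have hd : Disjoint (nb J u) (nb J v) := by
      rw [Finset.disjoint_left]
      intro w hw1 hw2
      unfold nb at hw1 hw2
      rw [Finset.mem_filter] at hw1 hw2
      exact h u v w huv hw1.2 hw2.2
    have h1 := Finset.card_le_univ (nb J u ∪ nb J v)
    rw [Finset.card_union_of_disjoint hd] at h1
    exact_mod_cast h1
  have h1 : ∑ u : V, ∑ v : V, (if J.Adj u v then (1:ℝ) else 0) *
      (((nb J u).card : ℝ) + ((nb J v).card : ℝ)) ≤
      ∑ u : V, ∑ v : V, (if J.Adj u v then (1:ℝ) else 0) * (Fintype.card V : ℝ) := by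
    refine Finset.sum_le_sum fun u _ => Finset.sum_le_sum fun v _ => ?_
    by_cases huv : J.Adj u v
    · rw [if_pos huv, one_mul, one_mul]
      exact hedge u v huv
    · rw [if_neg huv, zero_mul, zero_mul]
  have h2 : ∑ u : V, ∑ v : V, (if J.Adj u v then (1:ℝ) else 0) *
      (((nb J u).card : ℝ) + ((nb J v).card : ℝ)) =
      2 * ∑ u : V, ((nb J u).card : ℝ) ^ 2 := by
    simp only [mul_add, Finset.sum_add_distrib]
    have e1 : ∑ u : V, ∑ v : V, (if J.Adj u v then (1:ℝ) else 0) * ((nb J u).card : ℝ) =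
        ∑ u : V, ((nb J u).card : ℝ) ^ 2 := by
      refine Finset.sum_congr rfl fun u _ => ?_
      rw [← Finset.sum_mul, ← hdeg u, sq]
    have e2 : ∑ u : V, ∑ v : V, (if J.Adj u v then (1:ℝ) else 0) * ((nb J v).card : ℝ) =
        ∑ u : V, ((nb J u).card : ℝ) ^ 2 := by
      rw [Finset.sum_comm]
      refine Finset.sum_congr rfl fun u _ => ?_
      rw [← Finset.sum_mul, ← hdeg' u, sq]
    rw [e1, e2]
    ring
  have h3 : ∑ u : V, ∑ v : V, (if J.Adj u v then (1:ℝ) else 0) * (Fintype.card V : ℝ) =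
      (Fintype.card V : ℝ) * ∑ u : V, ((nb J u).card : ℝ) := by
    rw [Finset.mul_sum]
    refine Finset.sum_congr rfl fun u _ => ?_
    rw [← Finset.sum_mul, ← hdeg u, mul_comm]
  have h4 : (∑ u : V, ((nb J u).card : ℝ)) ^ 2 ≤
      (Fintype.card V : ℝ) * ∑ u : V, ((nb J u).card : ℝ) ^ 2 := by
    have := sq_sum_le_card_mul_sum_sq (s := (Finset.univ : Finset V))
      (f := fun u => ((nb J u).card : ℝ))
    simpa using this
  rw [h2, h3] at h1
  rw [oe_sum]
  set S := ∑ u : V, ((nb J u).card : ℝ) with hS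
  set Q := ∑ u : V, ((nb J u).card : ℝ) ^ 2 with hQ
  have hn : (0:ℝ) ≤ (Fintype.card V : ℝ) := Nat.cast_nonneg _
  have hS0 : 0 ≤ S := Finset.sum_nonneg fun u _ => Nat.cast_nonneg _
  have h5 : 2 * S ^ 2 ≤ (Fintype.card V : ℝ) ^ 2 * S := by nlinarith
  rcases hS0.eq_or_lt with h6 | h6
  · rw [← h6]; positivity
  · nlinarith

theorem oe_le {V : Type} [Fintype V] (G : SimpleGraph V) :
    ((oe G).card : ℝ) ≤ (Fintype.card V : ℝ) ^ 2 := by
  have h := Finset.card_le_univ (oe G)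
  rw [Fintype.card_prod] at h
  have h' : ((oe G).card : ℝ) ≤ ((Fintype.card V * Fintype.card V : ℕ) : ℝ) := by exact_mod_cast h
  rw [sq]
  exact_mod_cast h'

/-- Splitting a counting filter. -/
theorem card_split {α : Type} [Fintype α] (P Q : α → Prop) [DecidablePred P]
    [DecidablePred fun p => P p ∧ Q p] [DecidablePred fun p => P p ∧ ¬ Q p] :
    ((univ.filter fun p : α => P p).card : ℝ) = ((univ.filter fun p : α => P p ∧ Q p).card : ℝ) +
      ((univ.filter fun p : α => P p ∧ ¬ Q p).card : ℝ) := by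
  have h := Finset.card_filter_add_card_filter_not (s := univ.filter fun p : α => P p) Q
  rw [Finset.filter_filter, Finset.filter_filter] at h
  have h' : (univ.filter fun p : α => P p ∧ Q p).card + (univ.filter fun p : α => P p ∧ ¬ Q p).card
      = (univ.filter fun p : α => P p).card := by
    convert h
  exact_mod_cast h'.symm

theorem card_mono {α : Type} [Fintype α] (P Q : α → Prop) [DecidablePred P] [DecidablePred Q]
    (h : ∀ a, P a → Q a) :
    ((univ.filter fun p : α => P p).card : ℝ) ≤ ((univ.filter fun p : α => Q p).card : ℝ) := by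
  exact_mod_cast Finset.card_le_card (Finset.monotone_filter_right _ fun a _ => h a)

theorem st1 : EPTools → Removal → Peel → SmallG2 Kind.P → SmallG2 Kind.Ce → SmallG2 Kind.Co →
    NearExt → Bip → U3 → U4 → ST1 := by
  intro _ hRem hPeel hsP hsCe hsCo hNear hBip hU3 hU4 s hs κ hκ ε hε
  have hsm : SmallG2 κ := by
    cases κ with
    | P => exact hsP
    | Ce => exact hsCe
    | Co => exact hsCo
    | Po => exact absurd rfl hκ
  obtain ⟨η0, hη0, n1, H1⟩ := hU3 s hs κ hκ (1 / 4) (by norm_num)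
  obtain ⟨η1, hη1, n2, H2⟩ := hU3 s hs κ hκ (ε / 2) (by positivity)
  obtain ⟨ε4, hε4, n4, H4⟩ := hU4 s hs κ hκ (min η0 η1) (lt_min hη0 hη1)
  set ε1 : ℝ := min (ε / 4) (min (ε4 / 4) (1 / 4)) with hε1
  have hε1pos : 0 < ε1 := by rw [hε1]; positivity
  have hε1a : ε1 ≤ ε / 4 := min_le_left _ _
  have hε1b : ε1 ≤ ε4 / 4 := (min_le_right _ _).trans (min_le_left _ _)
  have hε1c : ε1 ≤ 1 / 4 := (min_le_right _ _).trans (min_le_right _ _)
  obtain ⟨δ1, hδ1, HN⟩ := hNear s (by omega) ε1 hε1pos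
  set ε0 : ℝ := min δ1 (min (ε / 4) (ε4 / 4)) with hε0
  have hε0pos : 0 < ε0 := by rw [hε0]; positivity
  have hε0a : ε0 ≤ δ1 := min_le_left _ _
  have hε0b : ε0 ≤ ε / 4 := (min_le_right _ _).trans (min_le_left _ _)
  have hε0c : ε0 ≤ ε4 / 4 := (min_le_right _ _).trans (min_le_right _ _)
  obtain ⟨n5, H5⟩ := hsm s hs δ1 hδ1
  obtain ⟨n6, H6⟩ := hRem (12 * s + 40) ε0 hε0pos
  refine ⟨δ1, hδ1, n1 + n2 + n4 + n5 + n6 + 1, ?_⟩
  intro V _ hV G hG hot
  have hn : (0:ℝ) < (Fintype.card V : ℝ) := by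
    have : 0 < Fintype.card V := by omega
    exact_mod_cast this
  have hn2 : (0:ℝ) < (Fintype.card V : ℝ) ^ 2 := by positivity
  -- removal
  have hotle : ((ot G).card : ℝ) ≤ (12 * s + 40) * (Fintype.card V : ℝ) ^ 2 := by
    have h1 := hPeel s (by omega) κ V G hG
    have h2 : ((ot G).card : ℝ) ≤ (12 * s + 40) * ((oe G).card : ℝ) := by exact_mod_cast h1
    exact h2.trans (mul_le_mul_of_nonneg_left (oe_le G) (by positivity))
  obtain ⟨J, hJG, hJT, hJ⟩ := H6 V (by omega) G hotle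
  have hm := mantel J hJT
  have hoeG : ((oe G).card : ℝ) ≤ (1 / 2 + ε0) * (Fintype.card V : ℝ) ^ 2 := by linarith
  have hest := HN V G (hoeG.trans (mul_le_mul_of_nonneg_right (by linarith) hn2.le))
    (H5 V (by omega) G hG) hot
  -- counts
  have hsplit := card_split (fun p : V × V => G.Adj p.1 p.2) (fun p => Estar G s p.1 p.2)
  have hEG : ((univ.filter fun p : V × V => G.Adj p.1 p.2 ∧ Estar G s p.1 p.2).card : ℝ) =
      ((univ.filter fun p : V × V => Estar G s p.1 p.2).card : ℝ) := by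
    congr 2
    ext p
    simp only [Finset.mem_filter, Finset.mem_univ, true_and]
    exact ⟨fun h => h.2, fun h => ⟨h.1, h⟩⟩
  have hoe : ((univ.filter fun p : V × V => G.Adj p.1 p.2).card : ℝ) = ((oe G).card : ℝ) := rfl
  rw [hEG, hoe] at hsplit
  have hnot : ((univ.filter fun p : V × V => G.Adj p.1 p.2 ∧ ¬ Estar G s p.1 p.2).card : ℝ) ≤
      (ε0 + ε1) * (Fintype.card V : ℝ) ^ 2 := by linarith
  have hnn : (0:ℝ) ≤ ((univ.filter fun p : V × V => G.Adj p.1 p.2 ∧
      ¬ Estar G s p.1 p.2).card : ℝ) := Nat.cast_nonneg _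
  have hoeJ : (1 / 2 - (ε0 + ε1)) * (Fintype.card V : ℝ) ^ 2 ≤ ((oe J).card : ℝ) := by linarith
  obtain ⟨A, hA1, hA2, -, -⟩ := hBip V J (ε0 + ε1) (by positivity) hJT hoeJ
  have hA1' : ((univ.filter fun p : V × V => p.1 ∈ A ∧ p.2 ∉ A ∧ ¬ G.Adj p.1 p.2).card : ℝ) ≤
      ε4 * (Fintype.card V : ℝ) ^ 2 := by
    refine (card_mono (fun p : V × V => p.1 ∈ A ∧ p.2 ∉ A ∧ ¬ G.Adj p.1 p.2)
      (fun p : V × V => p.1 ∈ A ∧ p.2 ∉ A ∧ ¬ J.Adj p.1 p.2) (fun p hp => ⟨hp.1, hp.2.1, fun h => hp.2.2 (hJG h)⟩)).trans (hA1.trans ?_)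
    exact mul_le_mul_of_nonneg_right (by linarith) hn2.le
  have hGJ : ((univ.filter fun p : V × V => G.Adj p.1 p.2 ∧ ¬ J.Adj p.1 p.2).card : ℝ) ≤
      ε0 * (Fintype.card V : ℝ) ^ 2 := by
    have h1 := card_split (fun p : V × V => G.Adj p.1 p.2) (fun p => J.Adj p.1 p.2)
    have h2 : ((univ.filter fun p : V × V => G.Adj p.1 p.2 ∧ J.Adj p.1 p.2).card : ℝ) =
        ((oe J).card : ℝ) := by
      unfold oe
      congr 2
      ext p
      simp only [Finset.mem_filter, Finset.mem_univ, true_and]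
      exact ⟨fun h => h.2, fun h => ⟨hJG h, h⟩⟩
    rw [h2, hoe] at h1
    linarith
  have hA2' : ((univ.filter fun p : V × V => G.Adj p.1 p.2 ∧ (p.1 ∈ A ↔ p.2 ∈ A)).card : ℝ) ≤
      ε4 * (Fintype.card V : ℝ) ^ 2 := by
    have h1 := card_split (fun p : V × V => G.Adj p.1 p.2 ∧ (p.1 ∈ A ↔ p.2 ∈ A))
      (fun p => J.Adj p.1 p.2)
    have h2 := card_mono (fun p : V × V => (G.Adj p.1 p.2 ∧ (p.1 ∈ A ↔ p.2 ∈ A)) ∧ J.Adj p.1 p.2)
      (fun p : V × V => J.Adj p.1 p.2 ∧ (p.1 ∈ A ↔ p.2 ∈ A)) (fun p hp => ⟨hp.2, hp.1.2⟩)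
    have h3 := card_mono (fun p : V × V => (G.Adj p.1 p.2 ∧ (p.1 ∈ A ↔ p.2 ∈ A)) ∧ ¬ J.Adj p.1 p.2)
      (fun p : V × V => G.Adj p.1 p.2 ∧ ¬ J.Adj p.1 p.2) (fun p hp => ⟨hp.1.1, hp.2⟩)
    have h4 : (ε0 + ε1 + ε0) * (Fintype.card V : ℝ) ^ 2 ≤ ε4 * (Fintype.card V : ℝ) ^ 2 :=
      mul_le_mul_of_nonneg_right (by linarith) hn2.le
    linarith
  have hnot' : ((univ.filter fun p : V × V => G.Adj p.1 p.2 ∧ ¬ Estar G s p.1 p.2).card : ℝ) ≤
      ε4 * (Fintype.card V : ℝ) ^ 2 :=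
    hnot.trans (mul_le_mul_of_nonneg_right (by linarith) hn2.le)
  -- popular neighbourhood
  obtain ⟨X, hX⟩ := H1 V (by omega) G hG (fun u v => Estar G s u v) (fun u v h => h)
    ((mul_le_mul_of_nonneg_right (by linarith) hn2.le).trans hest)
  have hXpos : 0 < η0 * (Fintype.card V : ℝ) ^ 2 := by positivity
  have hXcard : X.card = s := by
    have h1 : (0:ℝ) < ((univ.filter fun p : V × V => Estar G s p.1 p.2 ∧
        cn G p.1 p.2 = X).card : ℝ) := hXpos.trans_le hX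
    have h2 : 0 < (univ.filter fun p : V × V => Estar G s p.1 p.2 ∧
        cn G p.1 p.2 = X).card := by exact_mod_cast h1
    obtain ⟨p, hp⟩ := Finset.card_pos.1 h2
    have h3 := (Finset.mem_filter.1 hp).2
    rw [← h3.2]
    exact h3.1.2.1
  have hrest : ((univ.filter fun p : V × V => Estar G s p.1 p.2 ∧ ¬ cn G p.1 p.2 = X).card : ℝ) <
      ε / 2 * (Fintype.card V : ℝ) ^ 2 := by
    by_contra hcon
    have hcon' : ε / 2 * (Fintype.card V : ℝ) ^ 2 ≤ ((univ.filter fun p : V × V =>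
        Estar G s p.1 p.2 ∧ ¬ cn G p.1 p.2 = X).card : ℝ) := not_lt.1 hcon
    obtain ⟨X', hX0⟩ := H2 V (by omega) G hG (fun u v => Estar G s u v ∧ ¬ cn G u v = X)
      (fun u v h => h.1) (by convert hcon')
    have hX' : η1 * (Fintype.card V : ℝ) ^ 2 ≤ ((univ.filter fun p : V × V =>
        (Estar G s p.1 p.2 ∧ ¬ cn G p.1 p.2 = X) ∧ cn G p.1 p.2 = X').card : ℝ) := by
      convert hX0
    have h1 : (0:ℝ) < ((univ.filter fun p : V × V => (Estar G s p.1 p.2 ∧ ¬ cn G p.1 p.2 = X) ∧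
        cn G p.1 p.2 = X').card : ℝ) :=
      (mul_pos hη1 hn2).trans_le hX'
    have h2 : 0 < (univ.filter fun p : V × V => (Estar G s p.1 p.2 ∧ ¬ cn G p.1 p.2 = X) ∧
        cn G p.1 p.2 = X').card := by exact_mod_cast h1
    obtain ⟨p, hp⟩ := Finset.card_pos.1 h2
    have h3 := (Finset.mem_filter.1 hp).2
    have h4 : X = X' := by
      refine H4 V (by omega) G hG A hA1' hA2' hnot' X X' ?_ ?_
      · exact (mul_le_mul_of_nonneg_right (min_le_left _ _) hn2.le).trans hX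
      · refine (mul_le_mul_of_nonneg_right (min_le_right _ _) hn2.le).trans (hX'.trans ?_)
        exact card_mono (fun p : V × V => (Estar G s p.1 p.2 ∧ ¬ cn G p.1 p.2 = X) ∧
            cn G p.1 p.2 = X') (fun p : V × V => Estar G s p.1 p.2 ∧ cn G p.1 p.2 = X')
          (fun p hp => ⟨hp.1.1, hp.2⟩)
    exact h3.1.2 (h3.2.trans h4.symm)
  have hfin := card_split (fun p : V × V => Estar G s p.1 p.2) (fun p => cn G p.1 p.2 = X)
  refine ⟨X, J, hXcard, hJG, hJT, ?_, ?_, ?_⟩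
  · exact (mul_le_mul_of_nonneg_right (by linarith) hn2.le).trans hoeJ
  · exact hoeG.trans (mul_le_mul_of_nonneg_right (by linarith) hn2.le)
  · have h1 : (1 / 2 - ε) * (Fintype.card V : ℝ) ^ 2 ≤
        (1 / 2 - ε1 - ε / 2) * (Fintype.card V : ℝ) ^ 2 :=
      mul_le_mul_of_nonneg_right (by linarith) hn2.le
    linarith

end

end Pool.Agent.Helper85.Tri
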